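import Pool.Agent.W2helper70.IW.Up
import Pool.Agent.W2helper70.IW.Many

set_option autoImplicit false

/-!
# How many weight functions with small weights isolate perfect matchings

The parallel algorithms for perfect matching of Mulmuley, Vazirani and Vazirani and of Fenner, Gurjar and
Thierauf use a family of weight functions on the pairs of vertices which is fixed in advance and has
to contain, for every graph `G` with a perfect matching, one which isolates `G`: exactly one perfect
matching of `G` has least weight. How many weight functions are needed when the weights are in `{0, …, B}`?
Let `T` be the least number for the graphs with `2 n` vertices and at most `m ≥ n` edges (and a perfect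
matching). Then, for all `n, B ≥ 1`,

1. `T ≤ 1 + 2 m log (2 n) (4 m / n) ^ (2 n / B)`;
2. `T ≥ exp ((n + 1) / (8 B + 4) - 1 / 2)` if `m ≥ 2 n`;
3. `T > n / 2 ^ (3 l + 2)` for all `l ≥ 1` with `B < 2 ^ (l ^ 2)`, if `m ≥ 2 n`.

In 2 and 3 it is enough that the family isolates the bipartite graphs of maximum degree at most `2`.

So for sparse graphs (`2 n ≤ m ≤ C n`) and `B ≤ n ^ C` the logarithm of `T` has the order `n / B + log n`:
polynomially many weight functions do if and only if `B` is at least a constant times `n / log n`, and
`T = n ^ (1 + o (1))` if `B` is larger than every multiple of it. For all graphs polynomially many weight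
functions do for `B ≥ ε n` and do not for `B = o (n / log n)`, and with polynomially bounded weights at
least `n ^ (1 - o (1))` are needed (of the order `n ^ 2 log n` are enough for `B ≥ n log n`).

Proof. 1: the weights are independent, with probability of `j` proportional to `q ^ (B - j)`, and
`q ^ B = n / (4 m)`. Given weights which are positive on the edges of `G`, lower the weights of some perfect
matching of least weight by one; it is then the only one of least weight, and no weight function arises
twice in this way. This bounds the probability of isolating `G` from below by `(4 m / n) ^ (-2 n / B)`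
(`weighted`, `params`); then a union bound over the graphs.
2: for weights at most `B` and at least `4 B + 2` vertices on each side, a fraction of at least
`1 / (4 B + 2)` of the four cycles of the complete bipartite graph has alternating sum `0`. So some four cycle
is such for this proportion of the remaining weight functions; remove its vertices and go on (`Low`).
3: one block of `2 ^ (3 l + 2)` vertices on each side for each weight function, with a cycle of alternating sum
`0`. It exists: in a layered graph, if two paths with the same ends and the same alternating sum always meet,
then these are at least `r / L` times as dense, `r` the size and `L` the number of the layers, between one end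
and some inner vertex; the longer part has at least half of the layers, and one repeats this `l` times (`Paths`).
-/

namespace Pool.Agent.Results.MP_0087d5_lc.IsolationWeights

open Pool.Agent.W2helper70.IW

theorem result (n B : ℕ) (hn : 1 ≤ n) (hB : 1 ≤ B) :
    -- 1. a small isolating family for the graphs with at most `m` edges
    (∀ m : ℕ, n ≤ m → ∃ (T : ℕ) (W : Fin T → Sym2 (Fin (2 * n)) → ℕ), (∀ t e, W t e ≤ B) ∧
      (∀ G : SimpleGraph (Fin (2 * n)), G.edgeSet.ncard ≤ m → (∃ M, IsPM G M) → ∃ t, Isolates (W t) G) ∧
      (T : ℝ) ≤ 1 + 2 * m * Real.log (2 * n) * (4 * m / n : ℝ) ^ (2 * (n : ℝ) / B)) ∧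
    -- 2., 3. isolating families are large, already those for bipartite graphs of maximum degree `2`
    (∀ (T : ℕ) (W : Fin T → Sym2 (Fin (2 * n)) → ℕ), (∀ t e, W t e ≤ B) →
      (∀ G : SimpleGraph (Fin (2 * n)), G.IsBipartite → (∀ v, (G.neighborSet v).ncard ≤ 2) →
        (∃ M, IsPM G M) → ∃ t, Isolates (W t) G) →
      Real.exp (((n : ℝ) + 1) / (8 * B + 4) - 1 / 2) ≤ T ∧
      ∀ l : ℕ, 1 ≤ l → B < 2 ^ (l ^ 2) → n < T * 2 ^ (3 * l + 2)) :=
  ⟨fun _ hm => upper hn hB hm, fun _ W hW h => ⟨lower W hW h, fun _ hl hBl => many hl hBl W hW h⟩⟩

end Pool.Agent.Results.MP_0087d5_lc.IsolationWeights
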