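import Pool.Agent.W2helper22.AL.Size
import Pool.Agent.W2helper22.AL.Depth
import Pool.Agent.W2helper22.AL.Upper

/-!
# Perfect matching: size and depth against the number and the nesting of NOT gates

Consider randomised circuits that decide, with a constant gap between the acceptance probabilities,
whether a graph with `2 n` vertices has a perfect matching. We bound the number of alternations from
below: the largest number of steps of an increasing chain of graphs at which some NOT gate of one of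
the circuits changes its value. If it is at most `D`, then

* `c n ≤ (D + 1) (w log₂ (n + 2)) ^ 8` if the circuits have at most `2 ^ w` gates,
* `c n ≤ (D + 1) (d + log₂ (t + 2))` if they have depth at most `d` and at most `t` NOT gates.

For circuits with at most `t` NOT gates, at most `h` of them on each path, `D + 1 ≤ (1 + t / h) ^ h`.
So in polynomial size, and also in polylogarithmic depth (whatever the size), NOT gates that are not
nested must be as many as `n / polylog n`; with at most `h` NOT gates on each path (`h` fixed) there must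
be `n ^ (1 / h - o(1))` of them, and without a restriction of the nesting `log₂ n - O(log log n)`.

Conversely, for every function of `N` bits: if `N + 1 ≤ ∏ l, (t l + 1)` then every circuit with `s` gates
is equivalent to one with at most `2 s + 8 (N + 2) ^ 3 + 8 (N + 2 + ∑ l, t l) (h + 1)` gates and with at
most `t l` NOT gates of level `l` for each of the `h` levels `l`. So, as there are circuits of
polynomial size, `O(n ^ (2 / h))` NOT gates are sufficient if `h` of them may lie on a path.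

The circuits and the engines (average-case bounds for monotone circuits and formulas for perfect
matching, chains of blocks) are those of `Pool.Agent.W2helper76.SZ` and `Pool.Agent.W2helper76.RW`; new
is the count of the changes of the NOT gates.
-/

set_option autoImplicit false

namespace Pool.Agent.Results.MP_0087d5_lc.NegationNesting

open Finset
open Pool.Agent.W2helper76.RW (Circuit Gate DecidesPM)
open Pool.Agent.W2helper76.SZ (size)
open Pool.Agent.W2helper22.AL (Alternates Nesting)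

open Classical in
/-- For every gap `δ > 0` there is a `c > 0` such that the following holds for all `n`, `D`, `t`, `d`,
`w ≥ 1` and `h ≥ 1` and every random circuit that decides with gap `δ` whether a (bipartite) graph with
`2 n` vertices has a perfect matching.
(1) If the circuits have at most `D` alternations and at most `2 ^ w` gates, then
`c n ≤ (D + 1) (w log₂ (n + 2)) ^ 8`.
(2) If they have at most `D` alternations, depth at most `d` and at most `t` NOT gates, then
`c n ≤ (D + 1) (d + log₂ (t + 2))`.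
(3) If they have at most `2 ^ w` gates and at most `t` NOT gates, at most `h` of them on each path, then
`c n ≤ (1 + t / h) ^ h (w log₂ (n + 2)) ^ 8`.
(4) If they have depth at most `d` and at most `t` NOT gates, at most `h` of them on each path, then
`c n ≤ (1 + t / h) ^ h (d + log₂ (t + 2))`.
(5) A circuit with at most `t l` NOT gates of nesting level `l + 1` for all `l < h` has at most
`∏ l, (t l + 1) - 1` alternations, and every circuit with `T` NOT gates has at most `2 ^ T - 1`.
(6) If `N + 1 ≤ ∏ l, (t l + 1)`, `l < h`, for the number `N` of the inputs, then each circuit with `s`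
gates is equivalent to a circuit with at most `2 s + 8 (N + 2) ^ 3 + 8 (N + 2 + ∑ l, t l) (h + 1)` gates
which has nesting levels `≤ h` and at most `t l` NOT gates of level `l + 1` for each `l < h`. -/
theorem result (δ : ℝ) (hδ : 0 < δ) : ∃ c : ℝ, 0 < c ∧
    (∀ (n D w : ℕ) (_ : 1 ≤ w) (Ω : Type) [Fintype Ω] (p : Ω → ℝ)
      (C : Ω → Circuit (Sym2 (Fin n ⊕ Fin n))), DecidesPM δ p C → (∀ ω, Alternates (C ω) D) →
      (∀ ω, size (C ω) ≤ 2 ^ w) → c * n ≤ (D + 1) * (w * Real.logb 2 (n + 2)) ^ 8) ∧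
    (∀ (n D t d : ℕ) (Ω : Type) [Fintype Ω] (p : Ω → ℝ)
      (C : Ω → Circuit (Sym2 (Fin n ⊕ Fin n))), DecidesPM δ p C → (∀ ω, Alternates (C ω) D) →
      (∀ ω, (C ω).numNot ≤ t) → (∀ ω, (C ω).depth (C ω).out ≤ d) →
      c * n ≤ (D + 1) * (d + Real.logb 2 (t + 2))) ∧
    (∀ (n t h w : ℕ) (_ : 1 ≤ w) (_ : 1 ≤ h) (Ω : Type) [Fintype Ω] (p : Ω → ℝ)
      (C : Ω → Circuit (Sym2 (Fin n ⊕ Fin n))), DecidesPM δ p C → (∀ ω, (C ω).numNot ≤ t) →
      (∀ ω, ∃ lev, Nesting (C ω) h lev) → (∀ ω, size (C ω) ≤ 2 ^ w) →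
      c * n ≤ (1 + (t : ℝ) / h) ^ h * (w * Real.logb 2 (n + 2)) ^ 8) ∧
    (∀ (n t h d : ℕ) (_ : 1 ≤ h) (Ω : Type) [Fintype Ω] (p : Ω → ℝ)
      (C : Ω → Circuit (Sym2 (Fin n ⊕ Fin n))), DecidesPM δ p C → (∀ ω, (C ω).numNot ≤ t) →
      (∀ ω, ∃ lev, Nesting (C ω) h lev) → (∀ ω, (C ω).depth (C ω).out ≤ d) →
      c * n ≤ (1 + (t : ℝ) / h) ^ h * (d + Real.logb 2 (t + 2))) ∧
    (∀ (I : Type) (C : Circuit I) (h : ℕ) (lev : Fin C.s → ℕ) (t : ℕ → ℕ), Nesting C h lev →
      (∀ l < h, (univ.filter (fun i => C.IsNot i ∧ lev i = l + 1)).card ≤ t l) →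
      Alternates C (∏ l ∈ range h, (t l + 1) - 1)) ∧
    (∀ (I : Type) (C : Circuit I), Alternates C (2 ^ C.numNot - 1)) ∧
    ∀ (I : Type) [Fintype I] (C : Circuit I) (h : ℕ) (t : ℕ → ℕ),
      Fintype.card I + 1 ≤ ∏ l ∈ range h, (t l + 1) →
      ∃ (C' : Circuit I) (lev : Fin C'.s → ℕ), (∀ x, C'.eval x = C.eval x) ∧
        C'.s ≤ 2 * C.s + 8 * (Fintype.card I + 2) ^ 3 +
          8 * (Fintype.card I + 2 + ∑ l ∈ range h, t l) * (h + 1) ∧ Nesting C' h lev ∧
        ∀ l < h, (univ.filter (fun i => C'.IsNot i ∧ lev i = l + 1)).card ≤ t l := by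
  obtain ⟨c1, hc1, h1⟩ := Pool.Agent.W2helper22.AL.size_boundD hδ
  obtain ⟨c2, hc2, h2⟩ := Pool.Agent.W2helper22.AL.pm_boundD hδ
  have hS : ∀ (n D w : ℕ) (_ : 1 ≤ w) (Ω : Type) [Fintype Ω] (p : Ω → ℝ)
      (C : Ω → Circuit (Sym2 (Fin n ⊕ Fin n))), DecidesPM δ p C → (∀ ω, Alternates (C ω) D) →
      (∀ ω, size (C ω) ≤ 2 ^ w) →
      min c1 c2 * n ≤ (D + 1) * (w * Real.logb 2 (n + 2)) ^ 8 := by
    intro n D w hw Ω _ p C hdec halt hs
    have h3 := h1 n (D + 1) w hw Ω p C hdec (Nat.succ_le_succ (Nat.zero_le _))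
      (fun ω x hx J hJ => (halt ω x hx J hJ).trans (Nat.le_succ _)) hs
    push_cast at h3
    exact (mul_le_mul_of_nonneg_right (min_le_left _ _) (Nat.cast_nonneg _)).trans h3
  have hP : ∀ (n D t d : ℕ) (Ω : Type) [Fintype Ω] (p : Ω → ℝ)
      (C : Ω → Circuit (Sym2 (Fin n ⊕ Fin n))), DecidesPM δ p C → (∀ ω, Alternates (C ω) D) →
      (∀ ω, (C ω).numNot ≤ t) → (∀ ω, (C ω).depth (C ω).out ≤ d) →
      min c1 c2 * n ≤ (D + 1) * (d + Real.logb 2 (t + 2)) := by
    intro n D t d Ω _ p C hdec halt ht hd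
    have h3 := h2 n t d (D + 1) Ω p C hdec ht (Nat.succ_le_succ (Nat.zero_le _))
      (fun ω x hx J hJ => (halt ω x hx J hJ).trans (Nat.le_succ _)) hd
    push_cast at h3
    have hD : (0 : ℝ) < (D : ℝ) + 1 := by positivity
    rw [div_le_iff₀ hD] at h3
    refine (mul_le_mul_of_nonneg_right (min_le_right _ _) (Nat.cast_nonneg _)).trans ?_
    linarith
  have hfl : ∀ t h : ℕ, 1 ≤ h →
      (((⌊(1 + (t : ℝ) / h) ^ h⌋₊ - 1 : ℕ) : ℝ) + 1) ≤ (1 + (t : ℝ) / h) ^ h := by
    intro t h hh
    have h3 : (1 : ℝ) ≤ (1 + (t : ℝ) / h) ^ h := one_le_pow₀ (by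
      have : (0 : ℝ) ≤ (t : ℝ) / h := by positivity
      linarith)
    have h4 : 1 ≤ ⌊(1 + (t : ℝ) / h) ^ h⌋₊ := Nat.le_floor (by simpa using h3)
    have h6 : (((⌊(1 + (t : ℝ) / h) ^ h⌋₊ - 1 : ℕ) : ℝ) + 1) =
        ((⌊(1 + (t : ℝ) / h) ^ h⌋₊ : ℕ) : ℝ) := by
      rw [Nat.cast_sub h4]
      push_cast
      ring
    rw [h6]
    exact Nat.floor_le (by positivity)
  refine ⟨min c1 c2, lt_min hc1 hc2, fun n D w hw Ω _ => hS n D w hw Ω,
    fun n D t d Ω _ => hP n D t d Ω, ?_, ?_,
    fun I => Pool.Agent.W2helper22.AL.alternates_of_nesting,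
    fun I => Pool.Agent.W2helper22.AL.alternates_pow,
    fun I _ => Pool.Agent.W2helper22.AL.upper⟩
  · intro n t h w hw hh Ω _ p C hdec ht hlev hs
    have h3 := hS n (⌊(1 + (t : ℝ) / h) ^ h⌋₊ - 1) w hw Ω p C hdec (fun ω => by
      obtain ⟨lev, hl⟩ := hlev ω
      exact Pool.Agent.W2helper22.AL.alternates_total (C ω) hh lev hl (ht ω)) hs
    refine h3.trans (mul_le_mul_of_nonneg_right (hfl t h hh) ?_)
    positivity
  · intro n t h d hh Ω _ p C hdec ht hlev hd
    have h3 := hP n (⌊(1 + (t : ℝ) / h) ^ h⌋₊ - 1) t d Ω p C hdec (fun ω => by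
      obtain ⟨lev, hl⟩ := hlev ω
      exact Pool.Agent.W2helper22.AL.alternates_total (C ω) hh lev hl (ht ω)) ht hd
    refine h3.trans (mul_le_mul_of_nonneg_right (hfl t h hh) ?_)
    have := Pool.Agent.W2helper76.RW.one_le_logb t
    positivity

end Pool.Agent.Results.MP_0087d5_lc.NegationNesting
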