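import Pool.Agent.W2lead.PMMain

/-!
# Perfect matching: circuits that accept by means of few absent edges

Circuits that decide whether a graph has a perfect matching and in which every yes-instance can be
accepted with at most `t` negated inputs have at least `2 ^ w` gates, where `w` is of the order
`(n / (t + 1)) ^ (1 / 8) / log n`; with randomisation and one-sided error the acceptance probability is
below `2 / w` otherwise.
-/

namespace Pool.Agent.Results.MP_0087d5_lc.SparseCertificates

open Finset Pool.Agent.W2lead.PM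

open Classical in
/-- Let `n` be even, and let a finite family of circuits in negation normal form with at most `2 ^ w`
gates of fan-in two accept only graphs on `n` vertices with a perfect matching. If
`2 ^ 61 (⌊log₂ n⌋ + 2) ^ 8 w ^ 8 (t + 1) ≤ n`, then there is a graph with a perfect matching that is
accepted by means of at most `t` negated inputs only by a fraction `2 / w` of the circuits. -/
theorem result (n w t : ℕ) (hn : Even n) (hw : 1 ≤ w)
    (h : 2 ^ 61 * (Nat.log 2 n + 2) ^ 8 * w ^ 8 * (t + 1) ≤ n)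
    (R : Type) [Fintype R] [Nonempty R]
    (C : R → (Sym2 (Fin n) → Bool) → (Sym2 (Fin n) → Bool) → Bool)
    (hsize : ∀ ρ, HasSize (2 ^ w) (C ρ)) (hsound : ∀ ρ x, Accepts (C ρ) x → HasPM x) :
    ∃ x, HasPM x ∧
      ((univ.filter (fun ρ => AcceptsWith t (C ρ) x)).card : ℝ) ≤ 2 / w * Fintype.card R := by
  obtain ⟨L, hL⟩ : ∃ L, L = Nat.log 2 n := ⟨_, rfl⟩
  obtain ⟨k, hk⟩ : ∃ k, k = 2 ^ 59 * (L + 2) ^ 8 * w ^ 8 := ⟨_, rfl⟩
  rw [← hL] at h
  have hk1 : 4 * k * (t + 1) ≤ n := by
    rw [hk]
    refine le_trans (le_of_eq ?_) h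
    ring
  have hw8 : 0 < w ^ 8 := by positivity
  have hkpos : 0 < k := by rw [hk]; positivity
  have hkn : k ≤ n := by nlinarith
  have hklt : k < 2 ^ (L + 1) := by
    refine lt_of_le_of_lt hkn ?_
    rw [hL]
    exact Nat.lt_pow_succ_log_self (by norm_num) n
  obtain ⟨r, hr⟩ : ∃ r, r = n / (2 * k) := ⟨_, rfl⟩
  have hrt : 2 * (t + 1) ≤ r := by
    rw [hr, Nat.le_div_iff_mul_le (by omega)]
    calc 2 * (t + 1) * (2 * k) = 4 * k * (t + 1) := by ring
      _ ≤ n := hk1
  have hr0 : 0 < r := by omega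
  have hrk : r * (2 * k) ≤ n := by rw [hr]; exact Nat.div_mul_le_self n (2 * k)
  obtain ⟨m, hm⟩ := hn
  obtain ⟨q, hq⟩ : ∃ q, q = m - r * k := ⟨_, rfl⟩
  have hrk2 : r * k ≤ m := by
    have : r * (2 * k) = 2 * (r * k) := by ring
    omega
  have hcard : Fintype.card ((Fin r × Fin k × Bool) ⊕ (Fin q × Bool)) = Fintype.card (Fin n) := by
    simp only [Fintype.card_sum, Fintype.card_prod, Fintype.card_fin, Fintype.card_bool]
    have : r * (k * 2) = 2 * (r * k) := by ring
    omega
  have e := Fintype.equivOfCardEq hcard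
  by_contra hcon
  push Not at hcon
  have hmain := pm_ineq (lam := L + 1) (t := t) e hr0 hw hklt (by rw [hk]) R C hsize hsound
    (δ := 2 / w) (by positivity) (fun x hx => (hcon x hx).le)
  have hw0 : (0 : ℝ) < w := by exact_mod_cast hw
  have h1 : 2 / (w : ℝ) * ((r : ℝ) - t) * w ≤ 1 / w * r * w :=
    mul_le_mul_of_nonneg_right hmain hw0.le
  have h2 : 2 / (w : ℝ) * ((r : ℝ) - t) * w = 2 * ((r : ℝ) - t) := by field_simp
  have h3 : 1 / (w : ℝ) * r * w = r := by field_simp
  rw [h2, h3] at h1
  have h4 : (2 : ℝ) * (t + 1) ≤ r := by exact_mod_cast hrt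
  linarith

end Pool.Agent.Results.MP_0087d5_lc.SparseCertificates
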